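import Pool.Agent.helper12.TZ.Spec

set_option autoImplicit false

/-! Project tz (MP_baa4d7_al), row CHF: chains with trivial stabiliser. -/

namespace Pool.Agent.TZ

open Pool.Agent.helper58.DC Pool.Agent.DI Pool.Agent.GR Pool.Agent.OB

theorem CHF (hWCJ : WCJ_stmt) : CHF_stmt := by
  classical
  intro G _ _ p _ H R hR hRH
  haveI : Fintype (Subgroup G) := Fintype.ofFinite _
  obtain ⟨s, hs⟩ : ∃ s : Finset (Finset (Subgroup G)), ∀ C, C ∈ s ↔ PCh p ⊤ ⊥ C ∧ H ≤ nrm C :=
    ⟨Finset.univ.filter (fun C => PCh p ⊤ ⊥ C ∧ H ≤ nrm C), fun C => by simp⟩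
  let sg : Finset (Subgroup G) → ℤ := fun C => (-1 : ℤ) ^ (C.card + 1)
  let F : Subgroup G → ℤ := fun S => ∑ C ∈ s.filter (fun C => R ⊓ nrm C = S), sg C
  -- the sum over the S' ≥ S
  have hT : ∀ S : Subgroup G, S ≤ R → ∑ S' ∈ Finset.univ.filter (fun S' => S ≤ S'), F S' =
      W p (H ⊔ S) := by
    intro S hSR
    have h1 : ∑ S' ∈ Finset.univ.filter (fun S' => S ≤ S'), F S' =
        ∑ C ∈ s.filter (fun C => S ≤ R ⊓ nrm C), sg C := by
      rw [← Finset.sum_fiberwise_of_maps_to (s := s.filter (fun C => S ≤ R ⊓ nrm C))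
        (t := Finset.univ.filter (fun S' => S ≤ S')) (g := fun C => R ⊓ nrm C)
        (fun C hC => by
          rw [Finset.mem_filter] at hC ⊢
          exact ⟨Finset.mem_univ _, hC.2⟩)]
      refine Finset.sum_congr rfl fun S' hS' => ?_
      rw [Finset.mem_filter] at hS'
      show ∑ C ∈ s.filter (fun C => R ⊓ nrm C = S'), sg C = _
      refine Finset.sum_congr ?_ fun _ _ => rfl
      ext C
      rw [Finset.mem_filter, Finset.mem_filter, Finset.mem_filter]
      constructor
      · rintro ⟨h2, h3⟩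
        exact ⟨⟨h2, by rw [h3]; exact hS'.2⟩, h3⟩
      · rintro ⟨⟨h2, -⟩, h3⟩
        exact ⟨h2, h3⟩
    rw [h1]
    unfold W
    rw [← finsum_mem_coe_finset]
    refine finsum_mem_congr ?_ fun _ _ => rfl
    ext C
    rw [Finset.mem_coe, Finset.mem_filter, hs C, Set.mem_setOf_eq]
    constructor
    · rintro ⟨⟨h2, h3⟩, h4⟩
      exact ⟨h2, sup_le h3 (h4.trans inf_le_right)⟩
    · rintro ⟨h2, h3⟩
      exact ⟨⟨h2, le_sup_left.trans h3⟩, le_inf hSR (le_sup_right.trans h3)⟩
  have hsplit : ∀ S : Subgroup G, (∀ S', S < S' → F S' = 0) →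
      ∑ S' ∈ Finset.univ.filter (fun S' => S ≤ S'), F S' = F S := by
    intro S hS
    apply Finset.sum_eq_single_of_mem
    · rw [Finset.mem_filter]
      exact ⟨Finset.mem_univ _, le_rfl⟩
    · intro S' hS' hne
      rw [Finset.mem_filter] at hS'
      exact hS S' (lt_of_le_of_ne hS'.2 hne.symm)
  have hF : ∀ S : Subgroup G, S ≠ ⊥ → F S = 0 := by
    intro S
    induction S using WellFoundedGT.induction with
    | ind S ih =>
      intro hS
      by_cases hSR : S ≤ R
      · have h1 : ∀ S', S < S' → F S' = 0 := fun S' hS' =>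
          ih S' hS' (fun h => by
            rw [h] at hS'
            exact not_lt_bot hS')
        rw [← hsplit S h1, hT S hSR]
        apply (hWCJ G p).2.1 (H ⊔ S) S (hR.to_le hSR) le_sup_right _ hS
        refine sup_le ?_ Subgroup.le_normalizer
        intro h hh
        rw [Subgroup.mem_normalizer_iff]
        intro r
        constructor
        · intro hr
          have h2 := hRH r (hSR hr) h hh
          have h3 : h * r * h⁻¹ = r := by rw [← h2]; group
          have h4 : h * r * h⁻¹ ∈ (S : Set G) := by rw [h3]; exact hr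
          exact h4
        · intro hr
          have h2 := hRH (h * r * h⁻¹) (hSR hr) h hh
          have h3 : h * r * h⁻¹ = r := by
            have h4 : h⁻¹ * (h * r * h⁻¹ * h) = h⁻¹ * (h * (h * r * h⁻¹)) := by rw [h2]
            have h5 : h⁻¹ * (h * r * h⁻¹ * h) = r := by group
            have h6 : h⁻¹ * (h * (h * r * h⁻¹)) = h * r * h⁻¹ := by group
            rw [← h6, ← h4, h5]
          rw [h3] at hr
          exact hr
      · apply Finset.sum_eq_zero
        intro C hC
        rw [Finset.mem_filter] at hC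
        exact absurd (hC.2 ▸ inf_le_left) hSR
  have h1 := hsplit ⊥ (fun S' hS' => hF S' hS'.ne')
  rw [hT ⊥ bot_le, sup_bot_eq] at h1
  rw [h1]
  show _ = ∑ C ∈ s.filter (fun C => R ⊓ nrm C = ⊥), sg C
  rw [← finsum_mem_coe_finset]
  refine finsum_mem_congr ?_ fun _ _ => rfl
  ext C
  rw [Finset.mem_coe, Finset.mem_filter, hs C, Set.mem_setOf_eq, Subgroup.eq_bot_iff_forall]
  constructor
  · rintro ⟨h2, h3, h4⟩
    exact ⟨⟨h2, h3⟩, fun d hd => h4 d hd.1 hd.2⟩
  · rintro ⟨⟨h2, h3⟩, h4⟩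
    exact ⟨h2, h3, fun d hd hd' => h4 d ⟨hd, hd'⟩⟩

end Pool.Agent.TZ
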