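import Pool.Agent.helper12.TZ.Spec

set_option autoImplicit false

/-! Project tz (MP_baa4d7_al), row CLB: conjugation of a triple. -/

namespace Pool.Agent.TZ

open Pool.Agent.helper58.DC Pool.Agent.DI Pool.Agent.GR Pool.Agent.OB

theorem CLB_mem {G : Type} [Group G] (d h : G) (K : Subgroup G) :
    h ∈ cj d K ↔ d⁻¹ * h * d ∈ K := by
  unfold cj
  constructor
  · rintro ⟨k, hk, rfl⟩
    have h1 : d⁻¹ * ((MulAut.conj d).toMonoidHom k) * d = k := by
      show d⁻¹ * (d * k * d⁻¹) * d = k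
      group
    rw [h1]
    exact hk
  · intro h1
    refine ⟨d⁻¹ * h * d, h1, ?_⟩
    show d * (d⁻¹ * h * d) * d⁻¹ = h
    group

theorem CLB_chmem {G : Type} [Group G] (α : MulAut G) (C : Finset (Subgroup G)) (P' : Subgroup G) :
    P' ∈ chainMap α C ↔ ∃ P ∈ C, P.map α.toMonoidHom = P' := by
  classical
  unfold chainMap
  exact Finset.mem_image

theorem CLB_ch {G : Type} [Group G] (p : ℕ) (α : MulAut G) (C : Finset (Subgroup G))
    (h : PCh p ⊤ ⊥ C) : PCh p ⊤ ⊥ (chainMap α C) := by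
  refine ⟨?_, ?_, ?_, ?_, ?_⟩
  · intro P' hP' Q' hQ' _
    obtain ⟨P, hP, rfl⟩ := (CLB_chmem α C P').mp hP'
    obtain ⟨Q, hQ, rfl⟩ := (CLB_chmem α C Q').mp hQ'
    rcases h.chain.total hP hQ with h1 | h1
    · exact Or.inl (Subgroup.map_mono h1)
    · exact Or.inr (Subgroup.map_mono h1)
  · exact (CLB_chmem α C ⊥).mpr ⟨⊥, h.mem, Subgroup.map_bot _⟩
  · intro Q _
    exact bot_le
  · intro Q _
    exact le_top
  · intro Q' hQ'
    obtain ⟨Q, hQ, rfl⟩ := (CLB_chmem α C Q').mp hQ'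
    exact (h.pg Q hQ).map _

theorem CLB (hEQV : EQV_stmt) (hNM : Pool.Agent.helper58.DC.NM_stmt) : CLB_stmt := by
  rintro G _ _ p m g D hDg d hd ⟨t, y, C⟩ ⟨h1, h2, h3, h4, h5⟩
  have hn : nrm (chainMap (MulAut.conj d) C) = cj d (nrm C) := (hNM G (MulAut.conj d) C).2.2.2.1
  have hH : HX D (cjT d (t, y, C)) = cj d (HX D (t, y, C)) := by
    ext h
    rw [CLB_mem]
    show h ∈ D ⊓ Subgroup.centralizer {d * t * d⁻¹} ⊓ nrm (chainMap (MulAut.conj d) C) ↔
      d⁻¹ * h * d ∈ D ⊓ Subgroup.centralizer {t} ⊓ nrm C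
    rw [hn, Subgroup.mem_inf, Subgroup.mem_inf, Subgroup.mem_inf, Subgroup.mem_inf, CLB_mem,
      Subgroup.mem_centralizer_singleton_iff, Subgroup.mem_centralizer_singleton_iff]
    have e1 : h ∈ D ↔ d⁻¹ * h * d ∈ D := by
      constructor
      · intro hh
        exact D.mul_mem (D.mul_mem (D.inv_mem hd) hh) hd
      · intro hh
        have := D.mul_mem (D.mul_mem hd hh) (D.inv_mem hd)
        have e : d * (d⁻¹ * h * d) * d⁻¹ = h := by group
        rwa [e] at this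
    have e2 : h * (d * t * d⁻¹) = d * t * d⁻¹ * h ↔ d⁻¹ * h * d * t = t * (d⁻¹ * h * d) := by
      constructor
      · intro hh
        calc d⁻¹ * h * d * t = d⁻¹ * (h * (d * t * d⁻¹)) * d := by group
          _ = d⁻¹ * (d * t * d⁻¹ * h) * d := by rw [hh]
          _ = _ := by group
      · intro hh
        calc h * (d * t * d⁻¹) = d * (d⁻¹ * h * d * t) * d⁻¹ := by group
          _ = d * (t * (d⁻¹ * h * d)) * d⁻¹ := by rw [hh]
          _ = _ := by group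
    rw [← e1]
    constructor
    · rintro ⟨⟨a, b⟩, c⟩
      exact ⟨⟨a, e2.1 b⟩, c⟩
    · rintro ⟨⟨a, b⟩, c⟩
      exact ⟨⟨a, e2.2 b⟩, c⟩
  have hmem : ∀ z ∈ nrm C, d * z * d⁻¹ ∈ nrm (chainMap (MulAut.conj d) C) := by
    intro z hz
    rw [hn, CLB_mem]
    have e : d⁻¹ * (d * z * d⁻¹) * d = z := by group
    rw [e]
    exact hz
  refine ⟨⟨CLB_ch p _ C h1, hmem t h2, hmem y h3, ?_, ?_⟩, hH, ?_, ?_⟩
  · have h6 := hmem g h4
    rw [hDg d hd, mul_assoc, mul_inv_cancel, mul_one] at h6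
    exact h6
  · rw [hH]
    intro h hh hc
    rw [CLB_mem] at hh
    have h6 : d⁻¹ * h * d = 1 := by
      apply h5 _ hh
      have hc' : h * (d * y * d⁻¹) = d * y * d⁻¹ * h := hc
      calc d⁻¹ * h * d * y = d⁻¹ * (h * (d * y * d⁻¹)) * d := by group
        _ = d⁻¹ * (d * y * d⁻¹ * h) * d := by rw [hc']
        _ = _ := by group
    have h7 : h = d * (d⁻¹ * h * d) * d⁻¹ := by group
    rw [h7, h6]
    group
  · show Ui ((d * t * d⁻¹) ^ m) (d * y * d⁻¹) (HX D (cjT d (t, y, C))) = _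
    rw [hH, conj_pow]
    exact (hEQV G d (t ^ m) y (HX D (t, y, C))).1
  · show Bi ((d * t * d⁻¹) ^ m) (d * y * d⁻¹) (HX D (cjT d (t, y, C))) = _
    rw [hH, conj_pow]
    exact (hEQV G d (t ^ m) y (HX D (t, y, C))).2

end Pool.Agent.TZ
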