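import Pool.Agent.helper12.TZ.Spec

set_option autoImplicit false

/-! Project tz (MP_baa4d7_al), row UPV: the core theorem. -/

namespace Pool.Agent.TZ

open Pool.Agent.helper58.DC Pool.Agent.DI Pool.Agent.GR Pool.Agent.OB

theorem UPV_dvd {p : ℕ} {M : Ideal (integralClosure ℤ ℂ)} (h : Setup p M) {a : ℤ}
    (ha : InM M (a : ℂ)) : (p : ℤ) ∣ a := by
  obtain ⟨n, rfl | rfl⟩ := Int.eq_nat_or_neg a
  · have h1 : InM M (n : ℂ) := by simpa using ha
    exact Int.natCast_dvd_natCast.2 ((InM.natCast h n).1 h1)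
  · have h1 : InM M (n : ℂ) := by simpa using InM.neg ha
    exact (Int.natCast_dvd_natCast.2 ((InM.natCast h n).1 h1)).neg_right

theorem UPV_pp (p : ℕ) (hpr : p.Prime) (H : Type) [Finite H] [Nonempty H] :
    pp p H ≠ 0 ∧ ∃ m : ℕ, Nat.card H = pp p H * m ∧ ¬ p ∣ m := by
  obtain ⟨m, hm⟩ : (pp p H : ℕ) ∣ Nat.card H := pow_padicValNat_dvd
  have hcard : Nat.card H ≠ 0 := Nat.card_pos.ne'
  have hpp : pp p H ≠ 0 := by
    intro h0
    rw [h0, zero_mul] at hm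
    exact hcard hm
  refine ⟨hpp, m, hm, ?_⟩
  rintro ⟨k, rfl⟩
  have : Fact p.Prime := ⟨hpr⟩
  have h7 : p ^ (padicValNat p (Nat.card H) + 1) ∣ Nat.card H := by
    refine ⟨k, ?_⟩
    rw [pow_succ]
    conv_lhs => rw [hm]
    unfold pp
    ring
  exact pow_succ_padicValNat_not_dvd hcard h7

theorem UPV (hAPP : APP_stmt) (hCHR : CHR_stmt) (hTOR : TOR_stmt) (hFT2 : FT2_stmt)
    (hZT0 : ZT0_stmt) (hC3 : C3_stmt) (hTI : TI_stmt) : UPV_stmt := by
  intro p m M h G _ _ hO χ hχ g D hDg hDp hD hg ht hgm hgn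
  have hpr := h.pr
  have : Fact p.Prime := ⟨hpr⟩
  obtain ⟨hz1, hz2, -⟩ := hZT0 p M h G χ
  have hz : ClF M (zeta M χ) := ⟨hz1, hz2⟩
  obtain ⟨c, f, hf⟩ := hCHR G p D hDp (g ^ m) hgm hgn
  have hcomm : ∀ d ∈ D, d * g = g * d := by
    intro d hd
    exact Subgroup.mem_centralizer_singleton_iff.1 (hDg hd)
  obtain ⟨r, hr, hT⟩ := hAPP p m c M h G g D hDp hcomm ht hgm f hf (zeta M χ) hz
  have hTO := hTOR G p g (zeta M χ) hz1
  rw [hT] at hTO
  obtain ⟨w, hw, hw'⟩ := hFT2 p M h G hO χ hχ g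
  obtain ⟨hppG, k, hk, hpk⟩ := UPV_pp p hpr G
  obtain ⟨hppC, n, hn, hpn⟩ := UPV_pp p hpr (Subgroup.centralizer ({g} : Set G))
  rw [← hD] at hn hppC
  have hGC : (pp p G : ℂ) ≠ 0 := by exact_mod_cast hppG
  have hDC : (Nat.card D : ℂ) ≠ 0 := by exact_mod_cast hppC
  have h8 : (((n * k : ℕ) : ℂ) * (aB p M χ : ℂ)) * omega χ g = (k : ℂ) * r - (n : ℂ) * w := by
    have h9 : (pp p G : ℂ) * Nat.card D * ((((n * k : ℕ) : ℂ) * (aB p M χ : ℂ)) * omega χ g) =
        (pp p G : ℂ) * Nat.card D * ((k : ℂ) * r - (n : ℂ) * w) := by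
      rw [hn, hk] at hTO
      rw [hk] at hw'
      push_cast at hTO hw' ⊢
      linear_combination hTO - (Nat.card D : ℂ) * n * hw'
    exact mul_left_cancel₀ (mul_ne_zero hGC hDC) h9
  have hmulN : ∀ (j : ℕ) (z : ℂ), InM M z → InM M ((j : ℂ) * z) := by
    intro j z hz
    exact InM.mul_left h (IntAt.natCast h j) hz
  have h10 : InM M ((((n * k : ℕ) : ℂ) * (aB p M χ : ℂ)) * omega χ g) := by
    rw [h8, sub_eq_add_neg]
    exact InM.add h (hmulN k r hr) (InM.neg (hmulN n w hw))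
  have hint : ∀ k : ℤ, IntAt M (k : ℂ) := fun k => IntAt.of_isIntegral h (by
      have := isIntegral_algebraMap (R := ℤ) (A := ℂ) (x := k)
      simpa using this)
  have hom : IntAt M (omega χ g) :=
    IntAt.of_isIntegral h ((hC3 G).2.2.2 ⊤ χ ((hTI G χ).2 hχ) g)
  have h11 : InM M (((n * k : ℕ) : ℂ) * (aB p M χ : ℂ)) := by
    rcases InM.or h ((IntAt.natCast h (n * k)).mul h (hint _)) hom h10 with h12 | h12
    · exact h12
    · exact absurd h12 hg
  have h13 : InM M (aB p M χ : ℂ) := by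
    rcases InM.or h (IntAt.natCast h (n * k)) (hint _) h11 with h12 | h12
    · exact absurd ((InM.natCast h (n * k)).1 h12) (fun h14 =>
        (hpr.dvd_mul.1 h14).elim hpn hpk)
    · exact h12
  exact UPV_dvd h h13

end Pool.Agent.TZ
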